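import Pool.Agent.J4H75.NC.Stm

set_option autoImplicit false

/-! Project NC (helper75), piece CHN: irredundant sets over a subgroup generate big subgroups. -/

namespace Pool.Agent.J4H60.NC

open Pool.Agent.J4H75.NC

theorem double {G : Type} [Group G] [Finite G] {H H' : Subgroup G} (h : H ≤ H') {a : G}
    (ha : a ∉ H) (ha' : a ∈ H') : Nat.card H * 2 ≤ Nat.card H' := by
  obtain ⟨c, hc⟩ := Subgroup.card_dvd_of_le h
  have h0 : 0 < Nat.card H' := Nat.card_pos
  have h1 : c ≠ 0 := by
    rintro rfl
    rw [mul_zero] at hc
    omega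
  have h2 : c ≠ 1 := by
    rintro rfl
    rw [mul_one] at hc
    have h3 : H = H' := Subgroup.eq_of_le_of_card_ge h hc.le
    exact ha (h3 ▸ ha')
  rw [hc]
  exact Nat.mul_le_mul_left _ (by omega)

theorem t_CHN : S_CHN := by
  intro G _ _ N X hX
  classical
  induction X using Finset.induction_on with
  | empty =>
    have h : N ≤ Subgroup.closure ((N : Set G) ∪ ((∅ : Finset G) : Set G)) :=
      fun x hx => Subgroup.subset_closure (Or.inl hx)
    rw [Finset.card_empty, pow_zero, mul_one]
    exact Nat.le_of_dvd Nat.card_pos (Subgroup.card_dvd_of_le h)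
  | insert a X haX ih =>
    have h1 := ih (by
      intro x hx hcon
      apply hX x (Finset.mem_insert_of_mem hx)
      refine Subgroup.closure_mono (Set.union_subset_union_right _ ?_) hcon
      intro y hy
      exact ⟨Finset.mem_coe.2 (Finset.mem_insert_of_mem (Finset.mem_coe.1 hy.1)), hy.2⟩)
    have h2 : a ∉ Subgroup.closure ((N : Set G) ∪ (X : Set G)) := by
      intro hcon
      apply hX a (Finset.mem_insert_self a X)
      refine Subgroup.closure_mono (Set.union_subset_union_right _ ?_) hcon
      intro y hy
      refine ⟨Finset.mem_coe.2 (Finset.mem_insert_of_mem (Finset.mem_coe.1 hy)), ?_⟩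
      rintro rfl
      exact haX (Finset.mem_coe.1 hy)
    have h3 := double (H := Subgroup.closure ((N : Set G) ∪ (X : Set G)))
      (H' := Subgroup.closure ((N : Set G) ∪ ((insert a X : Finset G) : Set G)))
      (Subgroup.closure_mono (Set.union_subset_union_right _ (fun y hy =>
        Finset.mem_coe.2 (Finset.mem_insert_of_mem (Finset.mem_coe.1 hy))))) h2
      (Subgroup.subset_closure (Or.inr (Finset.mem_coe.2 (Finset.mem_insert_self a X))))
    rw [Finset.card_insert_of_notMem haX, pow_succ, ← mul_assoc]
    exact (Nat.mul_le_mul_right 2 h1).trans h3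

end Pool.Agent.J4H60.NC
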