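import Pool.Agent.J4H75.NC.Stm

set_option autoImplicit false

/-! Project NC (helper75), piece M1: a transposition of points of two cycles merges them. -/

namespace Pool.Agent.J4H60.NC

open Equiv Equiv.Perm Pool.Agent.J4H75.NC

theorem walk {α : Type} [DecidableEq α] {f : Perm α} {s : Set α} {u v : α}
    (hs : Set.MapsTo f s s) (hu : u ∈ s) (hv : v ∉ s) (n : ℕ) :
    (f ^ n) u ∈ s ∧ (swap u v * f).SameCycle u ((f ^ n) u) := by
  induction n with
  | zero => exact ⟨hu, SameCycle.refl _ _⟩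
  | succ n ih =>
    have h1 : (f ^ (n + 1)) u = f ((f ^ n) u) := by rw [pow_succ']; rfl
    rw [h1]
    have h2 : f ((f ^ n) u) ∈ s := hs ih.1
    refine ⟨h2, ?_⟩
    by_cases h3 : f ((f ^ n) u) = u
    · rw [h3]
    · have h4 : f ((f ^ n) u) ≠ v := fun h => hv (h ▸ h2)
      have h5 : (swap u v * f) ((f ^ n) u) = f ((f ^ n) u) := by
        rw [Perm.mul_apply, swap_apply_of_ne_of_ne h3 h4]
      have h6 := (sameCycle_apply_right (f := swap u v * f) (x := u) (y := (f ^ n) u)).2 ih.2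
      rwa [h5] at h6

theorem reach {α : Type} [Finite α] [DecidableEq α] {f : Perm α} {s : Set α} {u v : α}
    (hs : f.IsCycleOn s) (hu : u ∈ s) (hv : v ∉ s) {x : α} (hx : x ∈ s) :
    (swap u v * f).SameCycle u x := by
  obtain ⟨n, hn⟩ := (hs.2 hu hx).exists_nat_pow_eq
  rw [← hn]
  exact (walk hs.1.mapsTo hu hv n).2

theorem t_M1 : S_M1 := by
  intro α _ _ f s t u v hs ht hst hu hv
  have hvs : v ∉ s := fun h => Set.disjoint_left.1 hst h hv
  have hut : u ∉ t := fun h => Set.disjoint_left.1 hst hu h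
  set g := swap u v * f with hg
  have hs1 : ∀ x ∈ s, g.SameCycle u x := fun x hx => reach hs hu hvs hx
  have ht1 : ∀ x ∈ t, g.SameCycle v x := by
    intro x hx
    have h := reach ht hv hut hx
    rwa [swap_comm] at h
  have huv : g.SameCycle u v := by
    obtain ⟨y, hy, hyu⟩ := hs.1.surjOn hu
    have h1 : g y = v := by
      rw [hg, Perm.mul_apply, hyu, swap_apply_left]
    have h2 := (sameCycle_apply_right (f := g) (x := u) (y := y)).2 (hs1 y hy)
    rwa [h1] at h2
  have hall : ∀ x ∈ s ∪ t, g.SameCycle u x := by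
    rintro x (hx | hx)
    · exact hs1 x hx
    · exact huv.trans (ht1 x hx)
  refine ⟨?_, fun x hx y hy => (hall x hx).symm.trans (hall y hy)⟩
  have h1 : Set.BijOn f (s ∪ t) (s ∪ t) :=
    ⟨hs.1.mapsTo.union_union ht.1.mapsTo, f.injective.injOn, by
      rintro y (hy | hy)
      · obtain ⟨x, hx, rfl⟩ := hs.1.surjOn hy
        exact ⟨x, Or.inl hx, rfl⟩
      · obtain ⟨x, hx, rfl⟩ := ht.1.surjOn hy
        exact ⟨x, Or.inr hx, rfl⟩⟩
  have hm : Set.MapsTo (swap u v) (s ∪ t) (s ∪ t) := by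
    intro x hx
    by_cases h3 : x = u
    · rw [h3, swap_apply_left]; exact Or.inr hv
    · by_cases h4 : x = v
      · rw [h4, swap_apply_right]; exact Or.inl hu
      · rwa [swap_apply_of_ne_of_ne h3 h4]
  have h2 : Set.BijOn (swap u v) (s ∪ t) (s ∪ t) :=
    ⟨hm, (swap u v).injective.injOn, fun y hy => ⟨swap u v y, hm hy, swap_apply_self u v y⟩⟩
  exact h2.comp h1

end Pool.Agent.J4H60.NC
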